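import Pool.Agent.H54.WB.TargetsB

/-!
# Row NFC: fewer positions than vertices
-/

set_option autoImplicit false

namespace Pool.Agent.H19.WB

open Pool.Agent.H54.WB

theorem pf_NFC : T_NFC := by
  intro W V _ E k anc po h
  obtain ⟨S, hS⟩ : ∃ S : V → Set ℕ, S = fun v => Set.range po ∩ Set.Iio (po v) := ⟨_, rfl⟩
  have hSv : ∀ v, S v = Set.range po ∩ Set.Iio (po v) := fun v => by rw [hS]
  have hfin : ∀ v, (S v).Finite := fun v => by
    rw [hSv]
    exact (Set.finite_Iio (po v)).subset Set.inter_subset_right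
  have hrf : (Set.range po).Finite := Set.finite_range po
  have hmono : ∀ u v, po u < po v → (S u).ncard < (S v).ncard := by
    intro u v huv
    refine Set.ncard_lt_ncard ?_ (hfin v)
    rw [hSv, hSv]
    refine ⟨?_, ?_⟩
    · rintro x ⟨hx1, hx2⟩
      exact ⟨hx1, lt_trans hx2 huv⟩
    · intro hsub
      have h1 : po u ∈ Set.range po ∩ Set.Iio (po u) := hsub ⟨⟨u, rfl⟩, huv⟩
      exact lt_irrefl _ (Set.mem_Iio.mp h1.2)
  refine ⟨fun v => (S v).ncard, h.forest, h.lin, ?_, ?_, h.cmp, ?_⟩
  · intro v
    refine lt_min ?_ ?_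
    · have h1 : (S v).ncard ≤ (Set.Iio (po v)).ncard := by
        refine Set.ncard_le_ncard ?_ (Set.finite_Iio _)
        rw [hSv]
        exact Set.inter_subset_right
      have h2 : (Set.Iio (po v)).ncard = po v := by
        rw [← Finset.coe_Iio, Set.ncard_coe_finset, Nat.card_Iio]
      rw [h2] at h1
      exact lt_of_le_of_lt h1 (h.lt v)
    · have h1 : (S v).ncard < (Set.range po).ncard := by
        refine Set.ncard_lt_ncard ?_ hrf
        rw [hSv]
        refine ⟨Set.inter_subset_left, fun hsub => ?_⟩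
        have h2 : po v ∈ Set.range po ∩ Set.Iio (po v) := hsub ⟨v, rfl⟩
        exact lt_irrefl _ (Set.mem_Iio.mp h2.2)
      have h2 : (Set.range po).ncard ≤ Nat.card V := by
        rw [← Set.image_univ, ← Set.ncard_univ]
        exact Set.ncard_image_le Set.finite_univ
      exact lt_of_lt_of_le h1 h2
  · intro hl u v huv
    exact hmono u v (h.lev hl u v huv)
  · intro u v w huv hw hE
    have h1 := h.sep u v w huv hw hE
    rcases lt_or_gt_of_ne h1 with h2 | h2
    · exact (hmono u v h2).ne
    · exact (hmono v u h2).ne'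

end Pool.Agent.H19.WB
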