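import Pool.Agent.H54.WB.TargetsB

/-!
# Row NFE: normal form of the width parameters
-/

set_option autoImplicit false

namespace Pool.Agent.H19.WB

open Pool.Agent.H54.WB

/-- greedy positions -/
theorem greedy {V : Type} [Finite V] (anc : V → V → Prop) (hF : IsForest anc) (k : ℕ)
    (fr : V → Set V) (hfr : ∀ v, ∀ u ∈ fr v, anc u v) (hk : ∀ v, (fr v).ncard ≤ k) :
    ∃ po : V → ℕ, (∀ v, po v < k + 1) ∧ ∀ v, ∀ u ∈ fr v, po u ≠ po v := by
  have hwf : WellFounded anc := by
    have h1 : IsTrans V anc := ⟨hF.trans⟩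
    have h2 : Std.Irrefl anc := ⟨hF.irrefl⟩
    exact Finite.wellFounded_of_trans_of_irrefl anc
  have hstep : ∀ (v : V) (p : V → ℕ), ∃ x < k + 1, ∀ u ∈ fr v, p u ≠ x := by
    intro v p
    by_contra hcon
    push Not at hcon
    have h1 : (Finset.range (k + 1) : Set ℕ) ⊆ p '' fr v := by
      intro x hx
      obtain ⟨u, hu, hux⟩ := hcon x (by simpa using hx)
      exact ⟨u, hu, hux⟩
    have h2 : k + 1 ≤ (p '' fr v).ncard := by
      have h3 := Set.ncard_le_ncard h1 ((Set.toFinite (fr v)).image p)
      rw [Set.ncard_coe_finset, Finset.card_range] at h3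
      exact h3
    have h3 : (p '' fr v).ncard ≤ (fr v).ncard := Set.ncard_image_le (Set.toFinite _)
    have h4 := hk v
    omega
  choose g hg1 hg2 using hstep
  classical
  obtain ⟨po, hpo⟩ : ∃ po : V → ℕ, ∀ v, po v = g v (fun u => if anc u v then po u else 0) := by
    refine ⟨hwf.fix (fun v rec => g v (fun u => if h : anc u v then rec u h else 0)), fun v => ?_⟩
    rw [hwf.fix_eq]
    congr 1
  refine ⟨po, fun v => ?_, fun v u hu => ?_⟩
  · rw [hpo]
    exact hg1 _ _
  · have h1 := hg2 v (fun u => if anc u v then po u else 0) u hu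
    rw [if_pos (hfr v u hu), ← hpo v] at h1
    exact h1

theorem pf_NFE : T_NFE := by
  intro W V _ G k
  have hfrontle : ∀ (W : Width) (anc : V → V → Prop) (po : V → ℕ),
      Adm W G.Adj (k + 1) anc po → ∀ v, (front G anc v).ncard ≤ k := by
    intro W anc po h v
    have hnv : v ∉ front G anc v := fun h1 => h.forest.irrefl v h1.1
    have hinj : Set.InjOn po (insert v (front G anc v)) := by
      have key1 : ∀ u ∈ front G anc v, po u ≠ po v := by
        rintro u ⟨h1, w, hw, hE⟩
        exact h.sep u v w h1 hw hE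
      have key2 : ∀ u ∈ front G anc v, ∀ u' ∈ front G anc v, anc u u' → po u ≠ po u' := by
        rintro u ⟨h1, w, hw, hE⟩ u' ⟨h1', -⟩ huu
        refine h.sep u u' w huu (Or.inr ?_) hE
        rcases hw with rfl | hw
        · exact h1'
        · exact h.forest.trans _ _ _ h1' hw
      rintro a (rfl | ha) b (rfl | hb) hab
      · rfl
      · exact absurd hab.symm (key1 b hb)
      · exact absurd hab (key1 a ha)
      · rcases h.forest.chain a b v ha.1 hb.1 with h1 | h1 | h1
        · exact h1
        · exact absurd hab (key2 a ha b hb h1)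
        · exact absurd hab.symm (key2 b hb a ha h1)
    have h1 : (insert v (front G anc v)).ncard ≤ (Set.Iio (k + 1)).ncard :=
      Set.ncard_le_ncard_of_injOn po (fun a _ => h.lt a) hinj (Set.finite_Iio _)
    have h2 : (Set.Iio (k + 1)).ncard = k + 1 := by
      rw [← Finset.coe_Iio, Set.ncard_coe_finset, Nat.card_Iio]
    rw [h2, Set.ncard_insert_of_notMem hnv (Set.toFinite _)] at h1
    omega
  have hgr : ∀ anc : V → V → Prop, Elim G anc → (∀ v, (front G anc v).ncard ≤ k) →
      ∃ po : V → ℕ, (∀ v, po v < k + 1) ∧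
        ∀ u v w, anc u v → (w = v ∨ anc v w) → G.Adj u w → po u ≠ po v := by
    intro anc hE hf
    obtain ⟨po, h1, h2⟩ := greedy anc hE.1 k (front G anc) (fun v u hu => hu.1) hf
    exact ⟨po, h1, fun u v w huv hw hA => h2 v u ⟨huv, w, hw, hA⟩⟩
  cases W with
  | depth =>
    constructor
    · rintro ⟨anc, ⟨hF, hE⟩, hk⟩
      have hlev : ∀ u v, anc u v → {u' | anc u' u}.ncard < {u' | anc u' v}.ncard := by
        intro u v huv
        refine Set.ncard_lt_ncard ⟨fun x hx => hF.trans _ _ _ hx huv, fun hsub => ?_⟩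
          (Set.toFinite _)
        exact hF.irrefl u (hsub huv)
      exact ⟨anc, fun v => {u | anc u v}.ncard, hF, fun h => absurd h (by decide), hk,
        fun _ => hlev, hE, fun u v w huv _ _ => (hlev u v huv).ne⟩
    · rintro ⟨anc, po, h⟩
      refine ⟨anc, ⟨h.forest, h.cmp⟩, fun v => ?_⟩
      have hlev := h.lev rfl
      have hinj : Set.InjOn po {u | anc u v} := by
        intro a ha b hb hab
        rcases h.forest.chain a b v ha hb with h1 | h1 | h1
        · exact h1
        · exact absurd hab (hlev _ _ h1).ne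
        · exact absurd hab (hlev _ _ h1).ne'
      have h1 : {u | anc u v}.ncard ≤ (Set.Iio (po v)).ncard :=
        Set.ncard_le_ncard_of_injOn po (fun a ha => hlev a v ha) hinj (Set.finite_Iio _)
      have h2 : (Set.Iio (po v)).ncard = po v := by
        rw [← Finset.coe_Iio, Set.ncard_coe_finset, Nat.card_Iio]
      rw [h2] at h1
      exact lt_of_le_of_lt h1 (h.lt v)
  | path =>
    constructor
    · rintro ⟨anc, hE, hlin, hf⟩
      obtain ⟨po, h1, h2⟩ := hgr anc hE hf
      exact ⟨anc, po, hE.1, fun _ => hlin, h1, fun h => absurd h (by decide), hE.2, h2⟩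
    · rintro ⟨anc, po, h⟩
      exact ⟨anc, ⟨h.forest, h.cmp⟩, h.lin rfl, hfrontle _ anc po h⟩
  | tree =>
    constructor
    · rintro ⟨anc, hE, hf⟩
      obtain ⟨po, h1, h2⟩ := hgr anc hE hf
      exact ⟨anc, po, hE.1, fun h => absurd h (by decide), h1, fun h => absurd h (by decide),
        hE.2, h2⟩
    · rintro ⟨anc, po, h⟩
      exact ⟨anc, ⟨h.forest, h.cmp⟩, hfrontle _ anc po h⟩

end Pool.Agent.H19.WB
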