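import Pool.Agent.H54.WB.TargetsB

/-!
# Row WG1: from normal forms to derivations
-/

set_option autoImplicit false

namespace Pool.Agent.H19.WB

open Pool.Agent.H54.WB Pool.Agent.H8.VR

section
variable {W : Width} {k m : ℕ} {H : Gram (So k) (Co k)} {V : Type} {G : SimpleGraph V}
  {P : ℕ → V → Prop} {anc : V → V → Prop} {po : V → ℕ}

/-- the relations -/
def RR (G : SimpleGraph V) : ℕ → V → V → Prop := fun i u v => i = 0 ∧ G.Adj u v

theorem gen_pt (hH : IsGW W k m H) (r : V) (c : V → Co k) (s : So k) (i : Fin k)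
    (hi : c r i = false)
    (hs : s = .inr i ∨ ∃ l : Fin (k + 1), s = .inl l ∧
      (W.lev = true → l.val ≤ i.val) ∧ (W.lev = false → l.val = 0)) :
    H.Gen m P (RR G) s {r} c := by
  have hx : (⟨s, c r, fun i => i < m ∧ P i r, fun _ => False⟩ : Pt (So k) (Co k)) ∈ H.pts := by
    refine (hH.pts _ ?_ ?_).mpr ⟨i, hi, hs⟩
    · intro j hj
      exact hj
    · intro j hj hj2
      exact absurd hj2.1 (not_lt.mpr hj)
  refine Gram.Gen.pt _ hx r c rfl ?_ ?_
  · intro j hj
    exact ⟨fun h => ⟨hj, h⟩, fun h => h.2⟩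
  · intro j _
    exact ⟨fun h => G.loopless.irrefl r h.2, fun h => h.elim⟩

theorem claim [Finite V] (hH : IsGW W k m H) (h : Adm W G.Adj k anc po) (n : ℕ) :
    ∀ X : Set V, X.ncard = n → X.Nonempty → ∀ (c : V → Co k) (l : Fin (k + 1)),
    (∀ v ∈ X, ∀ w ∈ X, (w = v ∨ anc v w) → c w ⟨po v, h.lt v⟩ = false) →
    (W.lev = true → ∀ v ∈ X, l.val ≤ po v) → (W.lev = false → l.val = 0) →
    H.Gen m P (RR G) (.inl l) X c := by
  classical
  induction n using Nat.strong_induction_on with
  | _ n ih =>
  intro X hXn hXne c l hB hLv hL0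
  have hwf : WellFounded anc := by
    have h1 : IsTrans V anc := ⟨h.forest.trans⟩
    have h2 : Std.Irrefl anc := ⟨h.forest.irrefl⟩
    exact Finite.wellFounded_of_trans_of_irrefl anc
  obtain ⟨r, hrX, hmin⟩ := hwf.has_min X hXne
  have hBr : c r ⟨po r, h.lt r⟩ = false := hB r hrX r hrX (Or.inl rfl)
  by_cases hcase : ∀ v ∈ X, v ≠ r → anc r v
  · by_cases hX1 : X = {r}
    · rw [hX1]
      refine gen_pt hH r c _ ⟨po r, h.lt r⟩ hBr (Or.inr ⟨l, rfl, fun h1 => hLv h1 r hrX, hL0⟩)
    · -- the root and the rest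
      obtain ⟨Y, hY⟩ : ∃ Y, Y = X \ {r} := ⟨_, rfl⟩
      have hYX : ∀ v ∈ Y, v ∈ X ∧ v ≠ r := by
        intro v hv
        rw [hY] at hv
        exact ⟨hv.1, fun h1 => hv.2 h1⟩
      have hXY : {r} ∪ Y = X := by
        rw [hY]
        exact Set.union_sdiff_cancel (Set.singleton_subset_iff.mpr hrX)
      have hYne : Y.Nonempty := by
        by_contra hcon
        rw [Set.not_nonempty_iff_eq_empty] at hcon
        rw [hcon, Set.union_empty] at hXY
        exact hX1 hXY.symm
      have hd : Disjoint {r} Y := by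
        rw [Set.disjoint_singleton_left]
        exact fun h1 => (hYX r h1).2 rfl
      have hYn : Y.ncard < n := by
        rw [← hXn, ← hXY, Set.ncard_union_eq hd (Set.toFinite _) (Set.toFinite _),
          Set.ncard_singleton]
        omega
      obtain ⟨i, hi⟩ : ∃ i : Fin k, i = ⟨po r, h.lt r⟩ := ⟨_, rfl⟩
      rw [← hi] at hBr
      obtain ⟨cY, hcY⟩ : ∃ cY : V → Co k,
          ∀ w j, cY w j = if j = i then decide (G.Adj r w) else c w j :=
        ⟨fun w j => if j = i then decide (G.Adj r w) else c w j, fun _ _ => rfl⟩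
      obtain ⟨l', hl'⟩ : ∃ l' : Fin (k + 1),
          (W.lev = true → l'.val = i.val + 1) ∧ (W.lev = false → l'.val = 0) := by
        cases hW : W.lev with
        | true => exact ⟨⟨i.val + 1, by omega⟩, fun _ => rfl, fun h1 => absurd h1 (by decide)⟩
        | false => exact ⟨0, fun h1 => absurd h1 (by decide), fun _ => rfl⟩
      have hg2 := ih Y.ncard hYn Y rfl hYne cY l' ?_ ?_ hl'.2
      · have hg1 : H.Gen m P (RR G) (.inr i) {r} c := gen_pt hH r c _ i hBr (Or.inl rfl)
        have ho : (⟨.inr i, .inl l', .inl l, fun j _ q => j = 0 ∧ q i = true,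
            fun j _ q => j = 0 ∧ q i = true, id, fun q j => if j = i then false else q j,
            {n | 0 < n}⟩ : Op (So k) (Co k)) ∈ H.ops := by
          rw [hH.ops]
          refine ⟨rfl, Or.inr ⟨i, l, l', rfl, rfl, rfl, ?_, ?_, rfl, rfl, rfl, rfl⟩⟩
          · intro h1
            have h2 := hLv h1 r hrX
            refine ⟨?_, hl'.1 h1⟩
            rw [hi]
            exact h2
          · intro h1
            exact ⟨hL0 h1, hl'.2 h1⟩
        have hg := Gram.Gen.op (G := H) (m := m) (P := P) (R := RR G) _ ho {r} Y c c cY hg1 hg2 hd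
          ?_ ?_ ?_ ?_
        · rw [hXY] at hg
          exact hg
        · show 0 < Nat.pair ({r} : Set V).ncard Y.ncard
          rw [Set.ncard_singleton]
          exact lt_of_lt_of_le Nat.zero_lt_one (Nat.left_le_pair _ _)
        · rintro a rfl b hb j _
          have e1 : (cY b i = true) ↔ G.Adj a b := by
            rw [hcY, if_pos rfl, decide_eq_true_iff]
          constructor
          · show (j = 0 ∧ G.Adj a b) ↔ (j = 0 ∧ cY b i = true)
            rw [e1]
          · show (j = 0 ∧ G.Adj b a) ↔ (j = 0 ∧ cY b i = true)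
            rw [e1, G.adj_comm]
        · intro a _
          rfl
        · intro b hb
          funext j
          show c b j = if j = i then false else cY b j
          by_cases hj : j = i
          · rw [if_pos hj, hj, hi]
            exact hB r hrX b (hYX b hb).1 (Or.inr (hcase b (hYX b hb).1 (hYX b hb).2))
          · rw [if_neg hj, hcY, if_neg hj]
      · intro v hv w hw hvw
        rw [hcY]
        by_cases hj : (⟨po v, h.lt v⟩ : Fin k) = i
        · rw [if_pos hj, decide_eq_false_iff_not]
          intro hadj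
          rw [hi, Fin.mk.injEq] at hj
          exact h.sep r v w (hcase v (hYX v hv).1 (hYX v hv).2) hvw hadj hj.symm
        · rw [if_neg hj]
          exact hB v (hYX v hv).1 w (hYX w hw).1 hvw
      · intro h1 v hv
        have h2 := h.lev h1 r v (hcase v (hYX v hv).1 (hYX v hv).2)
        have h3 := hl'.1 h1
        rw [hi] at h3
        simp only at h3
        omega
  · -- disjoint union
    push Not at hcase
    obtain ⟨v₀, hv₀X, hv₀r, hv₀a⟩ := hcase
    obtain ⟨S, hS⟩ : ∃ S, S = {v | v ∈ X ∧ (v = r ∨ anc r v)} := ⟨_, rfl⟩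
    obtain ⟨T, hT⟩ : ∃ T, T = {v | v ∈ X ∧ ¬ (v = r ∨ anc r v)} := ⟨_, rfl⟩
    have hST : S ∪ T = X := by
      rw [hS, hT]
      ext v
      simp only [Set.mem_union, Set.mem_ofPred_eq]
      tauto
    have hd : Disjoint S T := by
      rw [Set.disjoint_left, hS, hT]
      intro v h1 h2
      exact h2.2 h1.2
    have hSne : S.Nonempty := ⟨r, by rw [hS]; exact ⟨hrX, Or.inl rfl⟩⟩
    have hTne : T.Nonempty := ⟨v₀, by
      rw [hT]
      exact ⟨hv₀X, fun h1 => h1.elim hv₀r hv₀a⟩⟩
    have hSc : 0 < S.ncard := (Set.ncard_pos (Set.toFinite _)).mpr hSne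
    have hTc : 0 < T.ncard := (Set.ncard_pos (Set.toFinite _)).mpr hTne
    have hsum : S.ncard + T.ncard = n := by
      rw [← hXn, ← hST, Set.ncard_union_eq hd (Set.toFinite _) (Set.toFinite _)]
    have hSX : ∀ v ∈ S, v ∈ X := fun v hv => by
      rw [← hST]
      exact Or.inl hv
    have hTX : ∀ v ∈ T, v ∈ X := fun v hv => by
      rw [← hST]
      exact Or.inr hv
    have hlin : W.lin = false := by
      by_contra hcon
      rw [Bool.not_eq_false] at hcon
      rcases h.lin hcon r v₀ with h1 | h1 | h1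
      · exact hv₀r h1.symm
      · exact hv₀a h1
      · exact hmin v₀ hv₀X h1
    have hno : ∀ u ∈ S, ∀ w ∈ T, ¬ G.Adj u w := by
      intro u hu w hw hadj
      have hu' := hu
      have hw' := hw
      rw [hS] at hu'
      rw [hT] at hw'
      rcases h.cmp u w hadj with h1 | h1
      · rcases hu'.2 with h2 | h2
        · rw [h2] at h1
          exact hw'.2 (Or.inr h1)
        · exact hw'.2 (Or.inr (h.forest.trans _ _ _ h2 h1))
      · rcases hu'.2 with h2 | h2
        · rw [h2] at h1
          exact hmin w hw'.1 h1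
        · rcases h.forest.chain w r u h1 h2 with h3 | h3 | h3
          · exact hw'.2 (Or.inl h3)
          · exact hmin w hw'.1 h3
          · exact hw'.2 (Or.inr h3)
    have hg1 := ih S.ncard (by omega) S rfl hSne c l
      (fun v hv w hw => hB v (hSX v hv) w (hSX w hw)) (fun h1 v hv => hLv h1 v (hSX v hv)) hL0
    have hg2 := ih T.ncard (by omega) T rfl hTne c l
      (fun v hv w hw => hB v (hTX v hv) w (hTX w hw)) (fun h1 v hv => hLv h1 v (hTX v hv)) hL0
    have ho : (⟨.inl l, .inl l, .inl l, fun _ _ _ => False, fun _ _ _ => False, id, id,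
        {n | 0 < n}⟩ : Op (So k) (Co k)) ∈ H.ops := by
      rw [hH.ops]
      exact ⟨rfl, Or.inl ⟨hlin, ⟨l, rfl, rfl, rfl⟩, rfl, rfl, rfl, rfl⟩⟩
    have hg := Gram.Gen.op (G := H) (m := m) (P := P) (R := RR G) _ ho S T c c c hg1 hg2 hd
      ?_ ?_ ?_ ?_
    · rw [hST] at hg
      exact hg
    · show 0 < Nat.pair S.ncard T.ncard
      exact lt_of_lt_of_le hSc (Nat.left_le_pair _ _)
    · intro a ha b hb j _
      constructor
      · exact ⟨fun h1 => hno a ha b hb h1.2, fun h1 => h1.elim⟩
      · exact ⟨fun h1 => hno a ha b hb h1.2.symm, fun h1 => h1.elim⟩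
    · intro a _
      rfl
    · intro b _
      rfl

end

theorem pf_WG1 : T_WG1 := by
  intro W k m H _ hH V _ _ G P anc po h
  exact ⟨fun _ _ => false, claim hH h _ Set.univ rfl Set.univ_nonempty _ 0
    (fun _ _ _ _ _ => rfl) (fun _ _ _ => Nat.zero_le _) (fun _ => rfl)⟩

end Pool.Agent.H19.WB
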